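import Pool.Agent.Run7.h587.Ad.Def
import Pool.Agent.Run7.h587.Ad.Iso

/-!
# The integers are not defined by systems of equations `w² = f(z)` adapted at two

Every existential formula over `ℚ` is equivalent to `∃ z w, w² = f(z)` with one polynomial `f` of degree
at most four. We consider polynomials `f(z₁, …, z_n)`, `n ≥ 1`, of degree at most four in each variable
(so that `w² = f(z)` is a double cover of `(ℙ¹)ⁿ`, for `n = 2` in general a K3 surface, for `n ≥ 3` a
Calabi–Yau variety) which are adapted at `2`: the coefficients are `2`-integral, and for all the points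
`(z, w)` of `w² = f(z)` over `ℚ₂` the coordinates `z_i` are `2`-adic integers, `w ≠ 0`, the curves of
genus one in the directions of the coordinates through the point are smooth, and `2 w` is `2`-adically
smaller than the partial derivatives `∂f/∂z_i` at `z`. For example, by (4), all the polynomials
`f ≡ 3 ∏ (z_i² + z_i + 1)² + ∑ (z_i² + z_i) + 2` modulo `4` with integral coefficients and of degree at
most `4` in each variable are adapted at `2`.

Let `K` be a field of characteristic zero with an embedding `σ₀` in `ℚ₂`, for example `ℚ`, or a number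
field with a place of degree one above `2`. A *block* is an affine space over `K` (free parameters), or
the set of all the solutions in `K` of one equation `w² = f(z)`, `f` adapted at `2`. We consider the sets
`D` of the values of a rational function at the points of a product of blocks. These are the sets
defined by the existential formulas

`∃ z w u, ⋀_j w_j² = f_j(z_j) ∧ q(z, w, u) ≠ 0 ∧ t q(z, w, u) = p(z, w, u)`.

(1) If such a set `D` has at least two elements, it has no isolated points, for the topology of each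
embedding of `K` in `ℝ` or in a field `ℚ_p` (for `K = ℚ`: of each place).

(2) A union of `k` such sets has at most `k` isolated points, for each of these topologies.

(3) Let `K = ℚ`. If a union of `k` such sets is contained in `ℤ`, or if any two elements of it have the
distance at least `ε > 0`, for the usual or a `p`-adic absolute value, it has at most `k` elements. So
`ℤ` is not such a union.

(5) The class in (4) contains many equations with a solution: the set of those `g` for which the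
equation with `f = 3 ∏ (z_i² + z_i + 1)² + ∑ (z_i² + z_i) + 2 + 4 g` has a rational solution with
`z = 0` is Zariski dense in the space of all polynomials of degree at most `4` in each variable.

Idea of the proof. The two points `(z, w)` and `(z, -w)` on a curve of genus one `w² = q(t)`,
`q(0) = w²`, in the direction of a coordinate are congruent modulo `2`; their difference in the Jacobian
has a nonintegral abscissa, so it has infinite order, for all the solutions. It follows (theorem
`OpenAwayFromTorsion` of the problem MP_ed3816_nt) that near each solution the solutions in `K` are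
dense in the space of the local solutions, at all places, so they are Zariski dense near each of them.
-/

set_option autoImplicit false

namespace Pool.Agent.Results.MP_28f2cb_lc.AdaptedEquations

open MvPolynomial Pool.Agent.Run7.h587.Ad

/-- The polynomial `q(t) = F(z + t e_i)`. -/
noncomputable def line {K : Type} [Field K] {n : ℕ} (F : MvPolynomial (Fin n) K) (z : Fin n → K)
    (i : Fin n) : Polynomial K :=
  aeval (fun k => Polynomial.C (z k) + Polynomial.C ((Pi.single i 1 : Fin n → K) k) *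
    Polynomial.X) F

/-- The Jacobian of the curve `w² = q(t)`, where `q` is a polynomial of degree at most `4`. The curve
is smooth of genus one if the discriminant of the Jacobian is not zero. -/
noncomputable def jacobian {K : Type} [Field K] (q : Polynomial K) : WeierstrassCurve K :=
  ⟨0, q.coeff 2, 0, q.coeff 1 * q.coeff 3 - 4 * q.coeff 0 * q.coeff 4,
    q.coeff 1 ^ 2 * q.coeff 4 + q.coeff 0 * q.coeff 3 ^ 2 - 4 * q.coeff 0 * q.coeff 2 * q.coeff 4⟩

/-- `F` is adapted: the degree in each variable is at most `4`, the coefficients are integral, and at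
all the points of `w² = F(z)` over `ℚ₂` the coordinates `z_i` are integral, `w ≠ 0`, the curves in the
directions of the coordinates are smooth, and `2 w` is smaller than the partial derivatives. -/
def Adapted {n : ℕ} (F : MvPolynomial (Fin n) ℚ_[2]) : Prop :=
  (∀ i, F.degreeOf i ≤ 4) ∧ (∀ m, ‖F.coeff m‖ ≤ 1) ∧
  ∀ (z : Fin n → ℚ_[2]) (w : ℚ_[2]), w ^ 2 = eval z F → w ≠ 0 ∧
    ∀ i, ‖z i‖ ≤ 1 ∧ ‖2 * w‖ < ‖eval z (pderiv i F)‖ ∧ (jacobian (line F z i)).Δ ≠ 0

/-- A block: an affine space, or the set of the points `(w, z₁, …, z_n)` with coordinates in `K` and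
`w² = f(z)`, where `n ≥ 1` and `f` is adapted. -/
def Block {K : Type} [Field K] (σ₀ : K →+* ℚ_[2]) {n : ℕ} (S : Set (Fin (n + 1) → K)) : Prop :=
  S = Set.univ ∨ (1 ≤ n ∧ ∃ f : MvPolynomial (Fin n) K, Adapted (map σ₀ f) ∧
    S = {y | y 0 ^ 2 = eval (fun k => y k.succ) f})

/-- The values of `p / q` at the points `x = (x₁, …, x_r)` with `x_j ∈ S_j` for all `j` and
`q(x) ≠ 0`. -/
def values {K : Type} [Field K] {r : ℕ} {n : Fin r → ℕ} (S : ∀ j, Set (Fin (n j + 1) → K))
    (p q : MvPolynomial ((j : Fin r) × Fin (n j + 1)) K) : Set K :=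
  {t | ∃ x : ∀ j : Fin r, Fin (n j + 1) → K, (∀ j, x j ∈ S j) ∧
    eval (fun a => x a.1 a.2) q ≠ 0 ∧
    t = eval (fun a => x a.1 a.2) p / eval (fun a => x a.1 a.2) q}

/-- `t` is an isolated point of `D` for the topology given by the embedding `φ`. -/
def Isolated {K L : Type} [Field K] [NormedField L] (φ : K →+* L) (D : Set K) (t : K) : Prop :=
  t ∈ D ∧ ∃ ε : ℝ, 0 < ε ∧ ∀ s ∈ D, ‖φ s - φ t‖ < ε → s = t

/-- The polynomials `3 ∏ (z_i² + z_i + 1)² + ∑ (z_i² + z_i) + 2 + 4 g`. -/
noncomputable def member {n : ℕ} (g : MvPolynomial (Fin n) ℤ) : MvPolynomial (Fin n) ℤ :=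
  3 * ∏ i, (X i ^ 2 + X i + 1) ^ 2 + ∑ i, (X i ^ 2 + X i) + 2 + 4 * g

/-- The polynomial with the coefficients `c`, of degree at most `4` in each variable. -/
noncomputable def poly {n : ℕ} (c : (Fin n → Fin 5) → ℤ) : MvPolynomial (Fin n) ℤ :=
  ∑ e, C (c e) * ∏ i, X i ^ (e i : ℕ)

lemma adapted_iff {n : ℕ} (F : MvPolynomial (Fin n) ℚ_[2]) :
    Adapted F ↔ Pool.Agent.Run7.h587.Ad.Adapted F := by
  rw [← adT_iff]
  exact Iff.rfl

section ld

variable {K L : Type} [Field K] [CharZero K] [NontriviallyNormedField L] [CompleteSpace L]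
  [CharZero L] {σ₀ : K →+* ℚ_[2]} {φ : K →+* L}

open Pool.Agent.Results.MP_ed3816_nt.OpenAwayFromTorsion in
lemma block_ld (hc : ∃ c : K, c ≠ 0 ∧ ‖φ c‖ < 1)
    (ho : ∀ (n : ℕ) (f : MvPolynomial (Fin n) K), Pool.Agent.Run7.h587.Ad.Adapted (f.map σ₀) →
      ∀ P, OnCover f P → ∃ U ∈ nhds (image φ P), ∀ S ∈ U, OnCover (f.map φ) S →
        S ∈ closure (Im f φ))
    {n : ℕ} {S : Set (Fin (n + 1) → K)} (hS : Block σ₀ S) : LD φ S := by
  rcases hS with rfl | ⟨hn, f, hf, rfl⟩
  · exact ld_univ hc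
  · have hf' := (adapted_iff _).1 hf
    rcases Set.eq_empty_or_nonempty (PS f) with h | ⟨y, hy⟩
    · intro x hx
      have hx' : x ∈ PS f := hx
      rw [h] at hx'
      exact hx'.elim
    · exact ld_cover (not_sq hf' (by omega) (P := ((fun k => y k.succ), y 0)) hy)
        (fun P hP => ne_K hf' hP) (ho n f hf')

end ld

section all

variable {K : Type} [Field K] [CharZero K] {σ₀ : K →+* ℚ_[2]}

lemma ld_p {p : ℕ} [hp : Fact p.Prime] (φ : K →+* ℚ_[p]) {n : ℕ} {S : Set (Fin (n + 1) → K)}
    (hS : Block σ₀ S) : LD φ S := by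
  refine block_ld ⟨(p : K), ?_, ?_⟩ (fun n f hf P hP => open_p hf φ hP) hS
  · exact_mod_cast hp.out.ne_zero
  · rw [map_natCast]
    exact Padic.norm_p_lt_one

lemma ld_r (φ : K →+* ℝ) {n : ℕ} {S : Set (Fin (n + 1) → K)} (hS : Block σ₀ S) : LD φ S := by
  refine block_ld ⟨1 / 2, by norm_num, ?_⟩ (fun n f hf P hP => open_real hf φ hP) hS
  rw [map_div₀, map_one, map_ofNat]
  norm_num

end all

section main

variable {K L : Type} [Field K] [NontriviallyNormedField L] {φ : K →+* L}

lemma not_iso {r : ℕ} {n : Fin r → ℕ} {S : ∀ j, Set (Fin (n j + 1) → K)}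
    {p q : MvPolynomial ((j : Fin r) × Fin (n j + 1)) K} (hS : ∀ j, LD φ (S j))
    (h : (values S p q).Nontrivial) (t : K) : ¬ Isolated φ (values S p q) t := by
  rintro ⟨ht, ε, hε, hiso⟩
  obtain ⟨t', ht', hne⟩ := h.exists_ne t
  obtain ⟨s, hs, hst, hlt⟩ := no_isolated (N := fun j => n j + 1) hS (p := p) (q := q) ht ht' hne hε
  exact hst (hiso s hs hlt)

lemma few_iso {k : ℕ} {r : Fin k → ℕ} {n : ∀ i, Fin (r i) → ℕ}
    {S : ∀ i, ∀ j, Set (Fin (n i j + 1) → K)}
    {p q : ∀ i, MvPolynomial ((j : Fin (r i)) × Fin (n i j + 1)) K} (hS : ∀ i j, LD φ (S i j)) :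
    {t | Isolated φ (⋃ i, values (S i) (p i) (q i)) t}.Finite ∧
      {t | Isolated φ (⋃ i, values (S i) (p i) (q i)) t}.ncard ≤ k := by
  refine few_isolated (N := fun i j => n i j + 1) hS (p := p) (q := q) ?_
  rintro t ⟨ht, ε, hε, hiso⟩
  obtain ⟨i, hi⟩ := Set.mem_iUnion.1 ht
  exact ⟨i, hi, ε, hε, fun s hs => hiso s (Set.mem_iUnion.2 ⟨i, hs⟩)⟩

lemma disc {k : ℕ} {D : Set K} (h : {t | Isolated φ D t}.Finite ∧ {t | Isolated φ D t}.ncard ≤ k)
    {ε : ℝ} (hε : 0 < ε) (hd : ∀ s ∈ D, ∀ t ∈ D, s ≠ t → ε ≤ ‖φ s - φ t‖) :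
    D.Finite ∧ D.ncard ≤ k := by
  have h1 : {t | Isolated φ D t} = D := by
    ext t
    constructor
    · exact fun h => h.1
    · intro ht
      refine ⟨ht, ε, hε, fun s hs hst => ?_⟩
      by_contra hne
      exact absurd hst (not_lt.2 (hd s hs t ht hne))
  rwa [h1] at h

end main

/-- **Isolated points.** -/
theorem result :
    -- (1) a set of values with two elements has no isolated points
    (∀ (K : Type) [Field K] [CharZero K] (σ₀ : K →+* ℚ_[2]) (r : ℕ) (n : Fin r → ℕ)
      (S : ∀ j, Set (Fin (n j + 1) → K)) (p q : MvPolynomial ((j : Fin r) × Fin (n j + 1)) K),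
      (∀ j, Block σ₀ (S j)) → (values S p q).Nontrivial →
        (∀ (ℓ : ℕ) [Fact ℓ.Prime] (φ : K →+* ℚ_[ℓ]) (t : K), ¬ Isolated φ (values S p q) t) ∧
        ∀ (φ : K →+* ℝ) (t : K), ¬ Isolated φ (values S p q) t) ∧
    -- (2) the isolated points of finite unions
    (∀ (K : Type) [Field K] [CharZero K] (σ₀ : K →+* ℚ_[2]) (k : ℕ) (r : Fin k → ℕ)
      (n : ∀ i, Fin (r i) → ℕ) (S : ∀ i, ∀ j, Set (Fin (n i j + 1) → K))
      (p q : ∀ i, MvPolynomial ((j : Fin (r i)) × Fin (n i j + 1)) K),
      (∀ i j, Block σ₀ (S i j)) →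
        (∀ (ℓ : ℕ) [Fact ℓ.Prime] (φ : K →+* ℚ_[ℓ]),
          {t | Isolated φ (⋃ i, values (S i) (p i) (q i)) t}.Finite ∧
          {t | Isolated φ (⋃ i, values (S i) (p i) (q i)) t}.ncard ≤ k) ∧
        ∀ φ : K →+* ℝ, {t | Isolated φ (⋃ i, values (S i) (p i) (q i)) t}.Finite ∧
          {t | Isolated φ (⋃ i, values (S i) (p i) (q i)) t}.ncard ≤ k) ∧
    -- (3) discrete sets, and the integers
    (∀ (k : ℕ) (r : Fin k → ℕ) (n : ∀ i, Fin (r i) → ℕ) (S : ∀ i, ∀ j, Set (Fin (n i j + 1) → ℚ))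
      (p q : ∀ i, MvPolynomial ((j : Fin (r i)) × Fin (n i j + 1)) ℚ),
      (∀ i j, Block (algebraMap ℚ ℚ_[2]) (S i j)) →
        (∀ ε : ℝ, 0 < ε →
          ((∀ s ∈ ⋃ i, values (S i) (p i) (q i), ∀ t ∈ ⋃ i, values (S i) (p i) (q i), s ≠ t →
            ε ≤ |(s : ℝ) - t|) ∨
          ∃ ℓ : ℕ, ∃ _ : Fact ℓ.Prime, ∀ s ∈ ⋃ i, values (S i) (p i) (q i),
            ∀ t ∈ ⋃ i, values (S i) (p i) (q i), s ≠ t → ε ≤ ‖(s : ℚ_[ℓ]) - t‖) →
          (⋃ i, values (S i) (p i) (q i)).Finite ∧ (⋃ i, values (S i) (p i) (q i)).ncard ≤ k) ∧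
        ((⋃ i, values (S i) (p i) (q i)) ⊆ Set.range ((↑) : ℤ → ℚ) →
          (⋃ i, values (S i) (p i) (q i)).Finite ∧ (⋃ i, values (S i) (p i) (q i)).ncard ≤ k) ∧
        (⋃ i, values (S i) (p i) (q i)) ≠ Set.range ((↑) : ℤ → ℚ)) ∧
    -- (4) the residue class modulo `4`
    (∀ (n : ℕ) (g : MvPolynomial (Fin n) ℤ), (∀ i, g.degreeOf i ≤ 4) →
      Adapted (map (Int.castRingHom ℚ_[2]) (member g))) ∧
    -- (5) the members with a rational point over `z = 0` are Zariski dense
    (∀ (n : ℕ) (P : MvPolynomial (Fin n → Fin 5) ℂ), P ≠ 0 →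
      ∃ (c : (Fin n → Fin 5) → ℤ) (w : ℤ), eval (fun e => (c e : ℂ)) P ≠ 0 ∧
        w ^ 2 = eval (fun _ => 0) (member (poly c))) := by
  refine ⟨?_, ?_, ?_, ?_, ?_⟩
  · intro K _ _ σ₀ r n S p q hS hD
    exact ⟨fun ℓ _ φ => not_iso (fun j => ld_p φ (hS j)) hD,
      fun φ => not_iso (fun j => ld_r φ (hS j)) hD⟩
  · intro K _ _ σ₀ k r n S p q hS
    exact ⟨fun ℓ _ φ => few_iso fun i j => ld_p φ (hS i j),
      fun φ => few_iso fun i j => ld_r φ (hS i j)⟩
  · intro k r n S p q hS
    have h1 : ∀ ε : ℝ, 0 < ε → (∀ s ∈ ⋃ i, values (S i) (p i) (q i),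
        ∀ t ∈ ⋃ i, values (S i) (p i) (q i), s ≠ t → ε ≤ |(s : ℝ) - t|) →
        (⋃ i, values (S i) (p i) (q i)).Finite ∧ (⋃ i, values (S i) (p i) (q i)).ncard ≤ k := by
      intro ε hε h
      refine disc (φ := algebraMap ℚ ℝ) (few_iso fun i j => ld_r _ (hS i j)) hε
        fun s hs t ht hne => ?_
      exact h s hs t ht hne
    have h2 : (⋃ i, values (S i) (p i) (q i)) ⊆ Set.range ((↑) : ℤ → ℚ) →
        (⋃ i, values (S i) (p i) (q i)).Finite ∧ (⋃ i, values (S i) (p i) (q i)).ncard ≤ k := by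
      intro h
      refine h1 1 one_pos fun s hs t ht hne => ?_
      obtain ⟨a, rfl⟩ := h hs
      obtain ⟨b, rfl⟩ := h ht
      have hab : a ≠ b := fun h => hne (by rw [h])
      have h3 : 1 ≤ |a - b| := Int.one_le_abs (sub_ne_zero.2 hab)
      have h4 : (((a : ℚ) : ℝ) - ((b : ℚ) : ℝ)) = ((a - b : ℤ) : ℝ) := by push_cast; ring
      rw [h4, ← Int.cast_abs]
      exact_mod_cast h3
    refine ⟨fun ε hε h => ?_, h2, fun h => ?_⟩
    · rcases h with h | ⟨ℓ, hℓ, h⟩
      · exact h1 ε hε h
      · refine disc (φ := algebraMap ℚ ℚ_[ℓ]) (few_iso fun i j => ld_p _ (hS i j)) hε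
          fun s hs t ht hne => ?_
        exact h s hs t ht hne
    · have h3 := (h2 h.subset).1
      rw [h] at h3
      exact Set.infinite_range_of_injective Int.cast_injective h3
  · intro n g hg
    exact (adapted_iff _).2 ((adT_iff _).1 (mem_adT hg))
  · intro n P hP
    obtain ⟨c, w, h4, h5⟩ := exist hP
    rw [← mem_eq] at h5
    exact ⟨c, w, h4, h5⟩

end Pool.Agent.Results.MP_28f2cb_lc.AdaptedEquations
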